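import Pool.Agent.Bc.All

/-!
# MP_f9d653_lc: naming parameters and Borel isomorphism relations

If `T(a)` is Borel complete, then every Borel isomorphism relation is Borel reducible to the
isomorphism relation of `T`.
-/

set_option autoImplicit false

namespace Pool.Agent.Results.MP_f9d653_lc.BorelPart

/-- The Borel sets of the space of `L`-structures with universe `ℕ`: generated by the sets
`g(x) = m` and `R(x)`. -/
@[reducible] def borelStr (L : FirstOrder.Language.{0, 0}) : MeasurableSpace (L.Structure ℕ) :=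
  MeasurableSpace.generateFrom
    ({A | ∃ (k : ℕ) (g : L.Functions k) (x : Fin k → ℕ) (m : ℕ),
        A = {M : L.Structure ℕ | @FirstOrder.Language.Structure.funMap L ℕ M k g x = m}} ∪
     {A | ∃ (k : ℕ) (R : L.Relations k) (x : Fin k → ℕ),
        A = {M : L.Structure ℕ | @FirstOrder.Language.Structure.RelMap L ℕ M k R x}})

/-- Isomorphism of `L`-structures with universe `ℕ`. -/
def Iso (L : FirstOrder.Language.{0, 0}) (M N : L.Structure ℕ) : Prop :=
  Nonempty (@FirstOrder.Language.Equiv L ℕ ℕ M N)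

/-- `T` is Borel complete: for every countable language `L'` there is a Borel map from the
`L'`-structures to the models of `T` that reduces isomorphism to isomorphism. -/
def BorelComplete {L : FirstOrder.Language.{0, 0}} (T : L.Theory) : Prop :=
  ∀ (L' : FirstOrder.Language.{0, 0}), Countable L'.Symbols →
    ∃ f : L'.Structure ℕ → L.Structure ℕ, @Measurable _ _ (borelStr L') (borelStr L) f ∧
      (∀ M : L'.Structure ℕ, @FirstOrder.Language.Theory.Model L ℕ (f M) T) ∧
      ∀ M N : L'.Structure ℕ, Iso L' M N ↔ Iso L (f M) (f N)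

theorem result (L : FirstOrder.Language.{0, 0}) (hL : Countable L.Symbols) (T : L.Theory)
    (n : ℕ) (p : T.CompleteType (Fin n)) (hp : BorelComplete p.toTheory)
    (L' : FirstOrder.Language.{0, 0}) (hL' : Countable L'.Symbols) (K : Set (L'.Structure ℕ))
    (hinv : ∀ M N : L'.Structure ℕ, M ∈ K → Iso L' M N → N ∈ K)
    (hK : @MeasurableSet (L'.Structure ℕ × L'.Structure ℕ)
      (@Prod.instMeasurableSpace _ _ (borelStr L') (borelStr L'))
      {q | q.1 ∈ K ∧ q.2 ∈ K ∧ Iso L' q.1 q.2}) :
    ∃ f : L'.Structure ℕ → L.Structure ℕ, @Measurable _ _ (borelStr L') (borelStr L) f ∧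
      (∀ M : L'.Structure ℕ, @FirstOrder.Language.Theory.Model L ℕ (f M) T) ∧
      ∀ M ∈ K, ∀ N ∈ K, (Iso L' M N ↔ Iso L (f M) (f N)) := by
  obtain ⟨F, h1, h2, h3⟩ := hp Pool.Bc.LC Pool.Bc.countable_LC
  exact Pool.Bc.bcx @Pool.Bc.core_done @Pool.Bc.vaught_done L hL T n p ⟨F, h1, h2, h3⟩ L' hL' K
    hinv hK

end Pool.Agent.Results.MP_f9d653_lc.BorelPart
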